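import Pool.Agent.Helper34.R9.Sheet

/-! # Row SV9 of the general sheet for `r = 9, 10, 11` (MP_798d7d_nt) -/

set_option autoImplicit false

namespace Pool.Helper34.R9

open Finset Polynomial

namespace S72

lemma sum_inv (K M : ℕ) (hK : 1 ≤ K) : ∑ q ∈ Ioc K M, ((q : ℝ) ^ 2)⁻¹ ≤ (K : ℝ)⁻¹ := by
  rcases Nat.lt_or_ge M K with h | h
  · rw [Ioc_eq_empty_of_le h.le, sum_empty]
    positivity
  · have := sum_Ioc_inv_sq_le_sub (α := ℝ) (k := K) (n := M) (by omega) h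
    have h2 : (0 : ℝ) ≤ (M : ℝ)⁻¹ := by positivity
    linarith

/-- the primes above `m` which divide `x` -/
lemma big_primes (m K c : ℕ) (x : ℤ) (hx : x ≠ 0) (hc : c < m)
    (h : |x| ≤ (c : ℤ) * (m : ℤ) ^ K) :
    (x.natAbs.primeFactors.filter (fun q => m < q)).card ≤ K := by
  obtain ⟨S, hS⟩ : ∃ S, S = x.natAbs.primeFactors.filter (fun q => m < q) := ⟨_, rfl⟩
  rw [← hS]
  have h1 : m ^ S.card ≤ ∏ q ∈ S, q := by
    refine pow_card_le_prod (s := S) (f := fun q => q) (n := m) ?_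
    intro q hq
    rw [hS, mem_filter] at hq
    exact hq.2.le
  have h2 : ∏ q ∈ S, q ∣ x.natAbs := by
    refine (prod_dvd_prod_of_subset _ _ _ ?_).trans (Nat.prod_primeFactors_dvd x.natAbs)
    rw [hS]
    exact filter_subset _ _
  have h3 : ∏ q ∈ S, q ≤ x.natAbs := Nat.le_of_dvd (Int.natAbs_pos.2 hx) h2
  have h4 : x.natAbs ≤ c * m ^ K := by
    zify
    exact h
  by_contra hcon
  have h5 : m ^ (K + 1) ≤ m ^ S.card := Nat.pow_le_pow_right (by omega) (by omega)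
  have h6 : c * m ^ K < m * m ^ K := Nat.mul_lt_mul_of_pos_right hc (by
    have : 0 < m := by omega
    positivity)
  have h7 : m ^ (K + 1) = m * m ^ K := pow_succ' m K
  omega

open Classical in
/-- the members with `q ∣ z` -/
lemma two (hR : ST_ROOT) (m q d : ℕ) (M zb : ℤ) (W : ℕ → ℕ → ℤ[X]) (hq : q.Prime) (hqm : q ≤ m)
    (hd : d ≤ 30) (hM : ¬ (q : ℤ) ∣ M) (hWd : ∀ i j, ¬ (q : ℤ) ∣ (W i j).coeff d)
    (hW : ∀ i j, (W i j).natDegree ≤ d) :
    (((Box m).filter (fun T => (q : ℤ) ∣ (W (T.1 1) (T.1 2)).eval (T.1 0 : ℤ) ∧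
      (q : ℤ) ∣ zb + M * (T.2 : ℤ))).card : ℝ) ≤ 120 * (m : ℝ) ^ 6 * ((q : ℝ) ^ 2)⁻¹ := by
  obtain ⟨Bq, hBq⟩ : ∃ Bq, Bq = (range (m ^ 3)).filter
    (fun b : ℕ => (q : ℤ) ∣ zb + M * (b : ℤ)) := ⟨_, rfl⟩
  have hBc : Bq.card ≤ m ^ 3 / q + 1 := by
    have h1 := hR (C zb + C M * X) 1 q (m ^ 3) hq (by compute_degree) (by
      simp only [coeff_add, coeff_C_mul, coeff_X_one, mul_one, coeff_C]
      simpa using hM) Bq (by
      intro b hb
      rw [hBq, mem_filter, mem_range] at hb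
      refine ⟨hb.1, ?_⟩
      simp only [eval_add, eval_mul, eval_C, eval_X]
      exact hb.2)
    omega
  have hinj : ((Box m).filter (fun T => (q : ℤ) ∣ (W (T.1 1) (T.1 2)).eval (T.1 0 : ℤ) ∧
      (q : ℤ) ∣ zb + M * (T.2 : ℤ))).card ≤
      (((range m) ×ˢ (range m)).biUnion (fun ij => (((range m).filter
        (fun x : ℕ => (q : ℤ) ∣ (W ij.1 ij.2).eval (x : ℤ))) ×ˢ Bq).image (fun p => (ij, p)))).card := by
    refine card_le_card_of_injOn (fun T => ((T.1 1, T.1 2), (T.1 0, T.2))) ?_ ?_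
    · intro T hT
      have hT' := mem_coe.1 hT
      rw [mem_filter] at hT'
      obtain ⟨hT1, hT2, hT3⟩ := hT'
      unfold Box at hT1
      rw [mem_product, Fintype.mem_piFinset] at hT1
      refine mem_coe.2 (mem_biUnion.2 ⟨(T.1 1, T.1 2), mem_product.2 ⟨hT1.1 1, hT1.1 2⟩, ?_⟩)
      refine mem_image.2 ⟨(T.1 0, T.2), mem_product.2 ⟨mem_filter.2 ⟨hT1.1 0, hT2⟩, ?_⟩, rfl⟩
      rw [hBq]
      exact mem_filter.2 ⟨hT1.2, hT3⟩
    · intro T _ T' _ h
      simp only [Prod.mk.injEq] at h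
      obtain ⟨⟨h1, h2⟩, h0, h3⟩ := h
      refine Prod.ext ?_ h3
      funext i
      fin_cases i
      · exact h0
      · exact h1
      · exact h2
  have hcard : (((range m) ×ˢ (range m)).biUnion (fun ij => (((range m).filter
        (fun x : ℕ => (q : ℤ) ∣ (W ij.1 ij.2).eval (x : ℤ))) ×ˢ Bq).image
        (fun p => (ij, p)))).card ≤ m * m * (30 * (m / q + 1) * (m ^ 3 / q + 1)) := by
    refine card_biUnion_le.trans ?_
    have h1 : ∀ ij ∈ (range m) ×ˢ (range m), ((((range m).filter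
        (fun x : ℕ => (q : ℤ) ∣ (W ij.1 ij.2).eval (x : ℤ))) ×ˢ Bq).image
        (fun p => (ij, p))).card ≤ 30 * (m / q + 1) * (m ^ 3 / q + 1) := by
      intro ij _
      refine card_image_le.trans ?_
      rw [card_product]
      refine Nat.mul_le_mul ?_ hBc
      refine (hR (W ij.1 ij.2) d q m hq (hW _ _) (hWd _ _) _ ?_).trans
        (Nat.mul_le_mul_right _ hd)
      intro b hb
      rw [mem_filter, mem_range] at hb
      exact hb
    refine (sum_le_sum h1).trans ?_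
    rw [sum_const, card_product, card_range, smul_eq_mul]
  have h2 : (((Box m).filter (fun T => (q : ℤ) ∣ (W (T.1 1) (T.1 2)).eval (T.1 0 : ℤ) ∧
      (q : ℤ) ∣ zb + M * (T.2 : ℤ))).card : ℝ) ≤
      ((m * m * (30 * (m / q + 1) * (m ^ 3 / q + 1)) : ℕ) : ℝ) := by
    exact_mod_cast hinj.trans hcard
  refine h2.trans ?_
  have hq0 : (0 : ℝ) < q := by
    exact_mod_cast hq.pos
  have hqm' : (q : ℝ) ≤ m := by exact_mod_cast hqm
  have hm1 : (1 : ℝ) ≤ m := by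
    have : 1 ≤ m := le_trans hq.one_le hqm
    exact_mod_cast this
  have h3 : ((m / q : ℕ) : ℝ) + 1 ≤ 2 * (m : ℝ) * (q : ℝ)⁻¹ := by
    have h4 := Nat.cast_div_le (α := ℝ) (m := m) (n := q)
    rw [div_eq_mul_inv] at h4
    have h5 : (1 : ℝ) ≤ (m : ℝ) * (q : ℝ)⁻¹ := by
      rw [← div_eq_mul_inv, le_div_iff₀ hq0]
      linarith
    linarith
  have h6 : ((m ^ 3 / q : ℕ) : ℝ) + 1 ≤ 2 * (m : ℝ) ^ 3 * (q : ℝ)⁻¹ := by
    have h4 := Nat.cast_div_le (α := ℝ) (m := m ^ 3) (n := q)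
    rw [div_eq_mul_inv] at h4
    push_cast at h4
    have h5 : (1 : ℝ) ≤ (m : ℝ) ^ 3 * (q : ℝ)⁻¹ := by
      rw [← div_eq_mul_inv, le_div_iff₀ hq0]
      have : (m : ℝ) ≤ (m : ℝ) ^ 3 := by
        have := pow_le_pow_right₀ hm1 (show 1 ≤ 3 by norm_num)
        simpa using this
      linarith
    linarith
  push_cast
  have e1 : 120 * (m : ℝ) ^ 6 * ((q : ℝ) ^ 2)⁻¹ =
      (m : ℝ) * m * (30 * (2 * (m : ℝ) * (q : ℝ)⁻¹) * (2 * (m : ℝ) ^ 3 * (q : ℝ)⁻¹)) := by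
    rw [← inv_pow]
    ring
  rw [e1]
  have hn1 : (0 : ℝ) ≤ ((m / q : ℕ) : ℝ) := Nat.cast_nonneg _
  have hn2 : (0 : ℝ) ≤ ((m ^ 3 / q : ℕ) : ℝ) := Nat.cast_nonneg _
  refine mul_le_mul_of_nonneg_left ?_ (by positivity)
  refine mul_le_mul ?_ h6 (by positivity) (by positivity)
  exact mul_le_mul_of_nonneg_left h3 (by norm_num)

end S72

open Classical in
theorem st_SV9 (hR : ST_ROOT) (h1 : ST_SV1) (h3 : ST_SV3) : ST_SV9 := by
  intro Q d K M κ zb lam P E ρ W A B tt C hQ hd hC hnd hP hW htt hB hEW hρ hρ0 hρC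
  obtain ⟨c, rfl⟩ : ∃ c : ℕ, C = (c : ℤ) := ⟨C.toNat, by omega⟩
  refine ⟨100 * (K + 1) + c + 1, ?_⟩
  intro m hm
  have hm1 : 1 ≤ m := by omega
  obtain ⟨V, hV⟩ : ∃ V : Finset (Fin 3 → ℕ), V = Fintype.piFinset fun _ => range m := ⟨_, rfl⟩
  have hVc : V.card = m ^ 3 := by
    rw [hV, Fintype.card_piFinset]
    simp
  have hq2 : ∀ q : ℕ, Q < q → ¬ (q : ℤ) ∣ 2 := by
    intro q hq h
    have := Int.le_of_dvd (by norm_num) h
    omega
  -- the three unions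
  obtain ⟨U1, hU1⟩ : ∃ U1, U1 = (V ×ˢ Ioc Q m).biUnion (fun z =>
    if z.2.Prime then ((range (m ^ 3)).filter (fun b : ℕ => ¬ (z.2 : ℤ) ∣ zb + M * (b : ℤ) ∧
      (z.2 : ℤ) ^ 6 ∣ (P z.1).eval (tt (z.1, b)))).image (fun b => (z.1, b)) else ∅) := ⟨_, rfl⟩
  obtain ⟨U2, hU2⟩ : ∃ U2, U2 = (Ioc Q m).biUnion (fun q =>
    if q.Prime then (Box m).filter (fun T => (q : ℤ) ∣ (W (T.1 1) (T.1 2)).eval (T.1 0 : ℤ) ∧
      (q : ℤ) ∣ zb + M * (T.2 : ℤ)) else ∅) := ⟨_, rfl⟩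
  obtain ⟨U3, hU3⟩ : ∃ U3, U3 = V.biUnion (fun a => ((ρ a).natAbs.primeFactors.filter
    (fun q => m < q ∧ Q < q)).biUnion (fun q => ((range (m ^ 3)).filter (fun b : ℕ =>
      (q : ℤ) ∣ (P a).eval (tt (a, b)))).image (fun b => (a, b)))) := ⟨_, rfl⟩
  have hsub : ((Box m).filter (fun T => ∃ q : ℕ, q.Prime ∧ Q < q ∧ (q : ℤ) ^ 4 ∣ A T ∧
      (q : ℤ) ^ 6 ∣ B T)) ⊆ U1 ∪ (U2 ∪ U3) := by
    intro T hT
    rw [mem_filter] at hT
    obtain ⟨hT1, q, hqp, hqQ, hqA, hqB⟩ := hT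
    have hT2 := hT1
    unfold Box at hT2
    rw [mem_product] at hT2
    have hTV : T.1 ∈ V := by
      rw [hV]
      exact hT2.1
    have hqB6 : (q : ℤ) ^ 6 ∣ (P T.1).eval (tt T) := hB T q 6 hqB
    have hqB1 : (q : ℤ) ∣ (P T.1).eval (tt T) := (dvd_pow_self _ (by norm_num)).trans hqB6
    by_cases hqm : q ≤ m
    · by_cases hz : (q : ℤ) ∣ zb + M * (T.2 : ℤ)
      · refine mem_union_right _ (mem_union_left _ ?_)
        rw [hU2]
        refine mem_biUnion.2 ⟨q, mem_Ioc.2 ⟨hqQ, hqm⟩, ?_⟩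
        rw [if_pos hqp]
        refine mem_filter.2 ⟨hT1, ?_, hz⟩
        refine hEW T.1 q hqp hqQ (tt T) ?_ hqB1
        rw [htt T]
        have e : E T.1 - (zb + M * (T.2 : ℤ)) ^ 2 - E T.1 = -((zb + M * (T.2 : ℤ)) ^ 2) := by ring
        rw [e]
        exact (dvd_pow hz (by norm_num)).neg_right
      · refine mem_union_left _ ?_
        rw [hU1]
        refine mem_biUnion.2 ⟨(T.1, q), mem_product.2 ⟨hTV, mem_Ioc.2 ⟨hqQ, hqm⟩⟩, ?_⟩
        rw [if_pos hqp]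
        exact mem_image.2 ⟨T.2, mem_filter.2 ⟨hT2.2, hz, hqB6⟩, rfl⟩
    · refine mem_union_right _ (mem_union_right _ ?_)
      rw [hU3]
      refine mem_biUnion.2 ⟨T.1, hTV, mem_biUnion.2 ⟨q, mem_filter.2 ⟨?_, by omega, hqQ⟩, ?_⟩⟩
      · rw [Nat.mem_primeFactors]
        refine ⟨hqp, ?_, Int.natAbs_ne_zero.2 (hρ0 _)⟩
        exact Int.natCast_dvd.1 (hρ T q hqp hqQ
          ((dvd_pow_self _ (by norm_num)).trans hqA) ((dvd_pow_self _ (by norm_num)).trans hqB))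
      · exact mem_image.2 ⟨T.2, mem_filter.2 ⟨hT2.2, hqB1⟩, rfl⟩
  -- first union
  have c1 : U1.card ≤ ∑ z ∈ V ×ˢ Ioc Q m, 10 * (m ^ 3 / z.2 ^ 2 + 1) := by
    rw [hU1]
    refine card_biUnion_le.trans (sum_le_sum fun z hz => ?_)
    rw [mem_product, mem_Ioc] at hz
    by_cases hp : z.2.Prime
    · rw [if_pos hp]
      refine card_image_le.trans ?_
      have hn := hnd z.2 hp hz.2.1
      refine h1 (P z.1) z.2 (m ^ 3) M κ zb (E z.1) hp (hP z.1).1 (by rw [(hP z.1).2]; exact hn.2.2.1)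
        hn.1 hn.2.1 (hq2 _ hz.2.1) _ ?_
      intro b hb
      rw [mem_filter, mem_range] at hb
      exact ⟨hb.1, hb.2.1, tt (z.1, b), htt (z.1, b), hb.2.2⟩
    · rw [if_neg hp, card_empty]
      exact Nat.zero_le _
  have d1 : (U1.card : ℝ) ≤ (m : ℝ) ^ 3 * (10 * ((m : ℝ) ^ 3 * (1 / 1000) + m)) := by
    have e0 : ∑ z ∈ V ×ˢ Ioc Q m, 10 * (m ^ 3 / z.2 ^ 2 + 1) =
        m ^ 3 * ∑ q ∈ Ioc Q m, 10 * (m ^ 3 / q ^ 2 + 1) := by
      rw [sum_product]
      simp only [sum_const, hVc, smul_eq_mul]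
    rw [e0] at c1
    have c1' : (U1.card : ℝ) ≤ ((m ^ 3 * ∑ q ∈ Ioc Q m, 10 * (m ^ 3 / q ^ 2 + 1) : ℕ) : ℝ) := by
      exact_mod_cast c1
    refine c1'.trans ?_
    push_cast
    refine mul_le_mul_of_nonneg_left ?_ (by positivity)
    rw [← mul_sum]
    refine mul_le_mul_of_nonneg_left ?_ (by norm_num)
    rw [sum_add_distrib, sum_const, nsmul_eq_mul, mul_one]
    refine add_le_add ?_ ?_
    · have e1 : ∀ q ∈ Ioc Q m, ((m ^ 3 / q ^ 2 : ℕ) : ℝ) ≤
          (m : ℝ) ^ 3 * ((q : ℝ) ^ 2)⁻¹ := by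
        intro q _
        have := Nat.cast_div_le (α := ℝ) (m := m ^ 3) (n := q ^ 2)
        push_cast at this
        rw [div_eq_mul_inv] at this
        exact this
      refine (sum_le_sum e1).trans ?_
      rw [← mul_sum]
      refine mul_le_mul_of_nonneg_left ?_ (by positivity)
      refine (S72.sum_inv Q m (by omega)).trans ?_
      rw [one_div]
      refine inv_anti₀ (by norm_num) ?_
      exact_mod_cast hQ
    · rw [Nat.card_Ioc]
      have : m - Q ≤ m := Nat.sub_le _ _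
      exact_mod_cast this
  -- second union
  have d2 : (U2.card : ℝ) ≤ 120 * (m : ℝ) ^ 6 * (1 / 1000) := by
    have c2 : (U2.card : ℝ) ≤ ∑ q ∈ Ioc Q m, 120 * (m : ℝ) ^ 6 * ((q : ℝ) ^ 2)⁻¹ := by
      rw [hU2]
      have c3 := card_biUnion_le (s := Ioc Q m) (t := fun q : ℕ =>
        if q.Prime then (Box m).filter (fun T => (q : ℤ) ∣ (W (T.1 1) (T.1 2)).eval (T.1 0 : ℤ) ∧
        (q : ℤ) ∣ zb + M * (T.2 : ℤ)) else ∅)
      refine le_trans (Nat.cast_le.2 c3) ?_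
      rw [Nat.cast_sum]
      refine sum_le_sum fun q hq => ?_
      rw [mem_Ioc] at hq
      by_cases hp : q.Prime
      · rw [if_pos hp]
        have hn := hnd q hp hq.1
        exact S72.two hR m q d M zb W hp hq.2 hd hn.1 hn.2.2.2 hW
      · rw [if_neg hp, card_empty, Nat.cast_zero]
        positivity
    refine c2.trans ?_
    rw [← mul_sum]
    refine mul_le_mul_of_nonneg_left ?_ (by positivity)
    refine (S72.sum_inv Q m (by omega)).trans ?_
    rw [one_div]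
    refine inv_anti₀ (by norm_num) ?_
    exact_mod_cast hQ
  -- third union
  have c3 : U3.card ≤ m ^ 3 * (K * (20 * m ^ 2)) := by
    rw [hU3]
    refine card_biUnion_le.trans ?_
    have e1 : ∀ a ∈ V, (((ρ a).natAbs.primeFactors.filter
        (fun q => m < q ∧ Q < q)).biUnion (fun q => ((range (m ^ 3)).filter (fun b : ℕ =>
        (q : ℤ) ∣ (P a).eval (tt (a, b)))).image (fun b => (a, b)))).card ≤ K * (20 * m ^ 2) := by
      intro a ha
      refine card_biUnion_le.trans ?_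
      have e2 : ∀ q ∈ (ρ a).natAbs.primeFactors.filter (fun q => m < q ∧ Q < q),
          (((range (m ^ 3)).filter (fun b : ℕ =>
          (q : ℤ) ∣ (P a).eval (tt (a, b)))).image (fun b => (a, b))).card ≤ 20 * m ^ 2 := by
        intro q hq
        rw [mem_filter, Nat.mem_primeFactors] at hq
        obtain ⟨⟨hqp, -, -⟩, hqm, hqQ⟩ := hq
        refine card_image_le.trans ?_
        have hn := hnd q hqp hqQ
        have e3 := h3 (P a) q (m ^ 3) M κ zb (E a) hqp (hP a).1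
          (by rw [(hP a).2]; exact hn.2.2.1) hn.1 ((range (m ^ 3)).filter (fun b : ℕ =>
            (q : ℤ) ∣ (P a).eval (tt (a, b)))) (by
              intro b hb
              rw [mem_filter, mem_range] at hb
              exact ⟨hb.1, tt (a, b), htt (a, b), hb.2⟩)
        refine e3.trans ?_
        have e4 : m ^ 3 / q ≤ m ^ 3 / m := Nat.div_le_div_left hqm.le (by omega)
        have e5 : m ^ 3 / m = m ^ 2 := by
          rw [pow_succ]
          exact Nat.mul_div_cancel _ (by omega)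
        have e6 : 1 ≤ m ^ 2 := Nat.one_le_pow _ _ (by omega)
        omega
      refine (sum_le_sum e2).trans ?_
      rw [sum_const, smul_eq_mul]
      refine Nat.mul_le_mul_right _ ?_
      have e7 := S72.big_primes m K c (ρ a) (hρ0 a) (by omega) (by
        have e8 : ((a, 0) : (Fin 3 → ℕ) × ℕ) ∈ Box m := by
          unfold Box
          rw [mem_product]
          refine ⟨?_, mem_range.2 (by positivity)⟩
          rw [hV] at ha
          exact ha
        exact hρC m hm1 (a, 0) e8)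
      refine (card_le_card ?_).trans e7
      intro q hq
      rw [mem_filter] at hq
      exact mem_filter.2 ⟨hq.1, hq.2.1⟩
    refine (sum_le_sum e1).trans ?_
    rw [sum_const, hVc, smul_eq_mul]
  have d3 : (U3.card : ℝ) ≤ (m : ℝ) ^ 3 * (K * (20 * (m : ℝ) ^ 2)) := by
    exact_mod_cast c3
  -- the end
  have hcard : (((Box m).filter (fun T => ∃ q : ℕ, q.Prime ∧ Q < q ∧ (q : ℤ) ^ 4 ∣ A T ∧
      (q : ℤ) ^ 6 ∣ B T)).card : ℝ) ≤ U1.card + (U2.card + U3.card) := by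
    have e1 := (card_le_card hsub).trans ((card_union_le _ _).trans
      (Nat.add_le_add_left (card_union_le _ _) _))
    exact_mod_cast e1
  have hfin : ((2 * ((Box m).filter (fun T => ∃ q : ℕ, q.Prime ∧ Q < q ∧ (q : ℤ) ^ 4 ∣ A T ∧
      (q : ℤ) ^ 6 ∣ B T)).card : ℕ) : ℝ) ≤ ((m ^ 6 : ℕ) : ℝ) := by
    rw [Nat.cast_mul, Nat.cast_pow]
    have hmK : (100 : ℝ) * (K + 1) ≤ m := by
      have : 100 * (K + 1) ≤ m := by omega
      exact_mod_cast this
    have hm0 : (1 : ℝ) ≤ m := by exact_mod_cast hm1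
    have hm100 : (100 : ℝ) ≤ m := by
      have : (0 : ℝ) ≤ K := Nat.cast_nonneg _
      linarith
    have f1 : (m : ℝ) ^ 4 * 10000 ≤ (m : ℝ) ^ 6 := by
      have : (m : ℝ) ^ 6 = (m : ℝ) ^ 4 * (m : ℝ) ^ 2 := by ring
      rw [this]
      refine mul_le_mul_of_nonneg_left ?_ (by positivity)
      nlinarith
    have f2 : (m : ℝ) ^ 5 * (100 * (K + 1)) ≤ (m : ℝ) ^ 6 := by
      have : (m : ℝ) ^ 6 = (m : ℝ) ^ 5 * m := by ring
      rw [this]
      exact mul_le_mul_of_nonneg_left hmK (by positivity)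
    have f3 : (0 : ℝ) ≤ (m : ℝ) ^ 5 := by positivity
    have g : (2 : ℕ) * (((Box m).filter (fun T => ∃ q : ℕ, q.Prime ∧ Q < q ∧ (q : ℤ) ^ 4 ∣ A T ∧
      (q : ℤ) ^ 6 ∣ B T)).card : ℝ) ≤ 2 * ((m : ℝ) ^ 3 * (10 * ((m : ℝ) ^ 3 * (1 / 1000) + m)) +
        (120 * (m : ℝ) ^ 6 * (1 / 1000) + (m : ℝ) ^ 3 * (K * (20 * (m : ℝ) ^ 2)))) := by
      push_cast
      linarith
    refine g.trans ?_
    have e : 2 * ((m : ℝ) ^ 3 * (10 * ((m : ℝ) ^ 3 * (1 / 1000) + m)) +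
        (120 * (m : ℝ) ^ 6 * (1 / 1000) + (m : ℝ) ^ 3 * (K * (20 * (m : ℝ) ^ 2)))) =
        (m : ℝ) ^ 6 * (26 / 100) + 20 * (m : ℝ) ^ 4 + 40 / 100 * ((m : ℝ) ^ 5 * (100 * (K + 1))) -
          40 * (m : ℝ) ^ 5 := by ring
    rw [e]
    have f4 : (0 : ℝ) ≤ (m : ℝ) ^ 6 := by positivity
    linarith
  exact_mod_cast hfin

end Pool.Helper34.R9
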